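import Pool.Agent.helper42.GB.SpecR

/-!
# Project gb, module TA: transitivity on unimodular rows (Theorem A), helper29
-/

open Polynomial Matrix

namespace GB

universe u

/-- the ideal generated by the entries in general position has height at least their number. -/
theorem TA_height {A : Type u} [CommRing A] {ι : Type} [Fintype ι] [DecidableEq ι] (v : ι → A)
    (hv : Um v) (j : ι) (n : ℕ∞)
    (h : ∀ p : Ideal A, p.IsPrime → (∀ i : {i // i ≠ j}, v i ∈ p) → v j ∉ p → n ≤ p.height) :
    n ≤ (Ideal.span (Set.range fun i : {i // i ≠ j} => v i)).height := by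
  rw [Ideal.height_eq_inf_minimalPrimes]
  refine le_iInf₂ fun p hp => ?_
  have hpp : p.IsPrime := hp.1.1
  have hle := hp.1.2
  have hmem : ∀ i : {i // i ≠ j}, v i ∈ p := fun i => hle (Ideal.subset_span ⟨i, rfl⟩)
  refine h p hpp hmem ?_
  intro hj
  apply hpp.ne_top
  rw [eq_top_iff, ← um_iff_span.1 hv, Ideal.span_le]
  rintro _ ⟨i, rfl⟩
  by_cases hi : i = j
  · rw [hi]; exact hj
  · exact hmem ⟨i, hi⟩

/-- an element of the ideal generated by the entries different from `j`. -/
theorem TA_comb {A : Type u} [CommRing A] {ι : Type} [Fintype ι] [DecidableEq ι] (v : ι → A)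
    (j : ι) (f : A) (hf : f ∈ Ideal.span (Set.range fun i : {i // i ≠ j} => v i)) :
    ∃ c : ι → A, c j = 0 ∧ v ⬝ᵥ c = f := by
  rw [Ideal.mem_span_range_iff_exists_fun] at hf
  obtain ⟨d, hd⟩ := hf
  refine ⟨fun i => if hi : i = j then 0 else d ⟨i, hi⟩, by simp, ?_⟩
  rw [← hd, dotProduct]
  rw [← Finset.sum_erase (a := j) Finset.univ (by simp)]
  have h1 : ∀ i : {i // i ≠ j}, d i * v i = v i.1 * (fun i => if hi : i = j then 0 else d ⟨i, hi⟩) i.1 := by
    intro i
    rw [mul_comm]
    simp only [i.2, dite_false]
  rw [Finset.sum_congr rfl fun i _ => h1 i]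
  exact (Finset.sum_subtype (F := inferInstance) (Finset.univ.erase j) (p := fun i => i ≠ j) (by simp)
    (fun i => v i * (fun i => if hi : i = j then 0 else d ⟨i, hi⟩) i))

theorem TA (hGP : GP_stmt.{u}) (hMON : MON_stmt.{u}) : TA_stmt.{u} := by
  intro R _ _ _ ι _ _ hcard hdim v hv j
  have hne : (ringKrullDim R) ≠ ⊥ := ringKrullDim_ne_bot
  have hcard' : Fintype.card {i // i ≠ j} + 1 = Fintype.card ι := by
    rw [Fintype.card_subtype_compl, Fintype.card_subtype_eq]
    omega
  obtain ⟨h, hh⟩ := hGP R[X] {i // i ≠ j} (fun i => v i) (v j)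
  -- the row in general position
  set c : ι → R[X] := fun i => if hi : i = j then 0 else h ⟨i, hi⟩ with hc
  have hcj : c j = 0 := by simp [hc]
  have e1 : EEq v (v + v j • c) := EEq_add_others j v c hcj
  set v1 : ι → R[X] := v + v j • c with hv1
  have hv1j : v1 j = v j := by simp [hv1, hcj]
  have hv1i : ∀ i : {i // i ≠ j}, v1 i = v i + h i * v j := by
    intro i
    have hi := i.2
    have : c i.1 = h i := by simp only [hc, hi, dite_false]
    rw [hv1, Pi.add_apply, Pi.smul_apply, this, smul_eq_mul, mul_comm (v j)]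
  have um1 : Um v1 := e1.um hv
  have hheight := TA_height v1 um1 j (Fintype.card {i // i ≠ j} : ℕ∞) (by
    intro p hp hmem hj
    refine hh p hp (fun i => ?_) (by rwa [hv1j] at hj)
    rw [← hv1i]
    exact hmem i)
  obtain ⟨f, hfJ, hf⟩ := LC_monic (R := R)
    (Ideal.span (Set.range fun i : {i // i ≠ j} => v1 i)) (by
      refine lt_of_lt_of_le ?_ (WithBot.coe_le_coe.2 hheight)
      have h2 : ringKrullDim R + 1 ≤ (Fintype.card {i // i ≠ j} : WithBot ℕ∞) := by
        rw [← hcard'] at hdim
        generalize ringKrullDim R = d at hdim hne ⊢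
        generalize Fintype.card {i // i ≠ j} = n at hdim ⊢
        induction d with
        | bot => exact absurd rfl hne
        | coe d =>
          induction d with
          | top =>
            exfalso
            have h3 : ((⊤ : ℕ∞) : WithBot ℕ∞) ≤ ((n + 1 : ℕ) : WithBot ℕ∞) := by
              refine le_trans ?_ hdim
              exact le_of_eq (by rfl)
            have h4 := WithBot.coe_le_coe.1 h3
            exact absurd h4 (by simp)
          | coe d =>
            have h6 : ((d + 2 : ℕ) : ℕ∞) ≤ ((n + 1 : ℕ) : ℕ∞) :=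
              WithBot.coe_le_coe.1 (le_trans (le_of_eq (by rfl)) hdim)
            have h7 : d + 2 ≤ n + 1 := by exact_mod_cast h6
            norm_cast
            omega
      generalize ringKrullDim R = d at h2 hne ⊢
      generalize Fintype.card {i // i ≠ j} = n at h2 ⊢
      induction d with
      | bot => exact absurd rfl hne
      | coe d =>
        induction d with
        | top =>
          exfalso
          have h3 : ((⊤ : ℕ∞) : WithBot ℕ∞) ≤ ((n : ℕ) : WithBot ℕ∞) := by
            refine le_trans ?_ h2
            exact le_of_eq (by rfl)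
          have h4 := WithBot.coe_le_coe.1 h3
          exact absurd h4 (by simp)
        | coe d =>
          norm_cast at h2 ⊢)
  obtain ⟨d, hdj, hd⟩ := TA_comb v1 j f hfJ
  set N : ℕ := (v1 j).natDegree + 1 with hN
  have e2 := EEq_add_one j v1 ((X ^ N : R[X]) • d) (by simp [hdj])
  rw [dotProduct_smul, hd, smul_eq_mul] at e2
  have hmonic : (v1 j + X ^ N * f).Monic := by
    refine Polynomial.Monic.add_of_right ((monic_X_pow N).mul hf) ?_
    have h5 : (X ^ N * f).degree = ((N + f.natDegree : ℕ) : WithBot ℕ) := by
      rw [degree_eq_natDegree ((monic_X_pow N).mul hf).ne_zero,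
        (monic_X_pow N).natDegree_mul hf, natDegree_X_pow]
    rw [h5]
    refine lt_of_le_of_lt degree_le_natDegree ?_
    exact_mod_cast (by omega : (v1 j).natDegree < N + f.natDegree)
  have e3 := hMON R ι hcard _ (e2.um um1) j (by rw [Function.update_self]; exact hmonic) j
  exact (e3.trans e2.symm).trans e1.symm

end GB
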